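import Mathlib

/-!
# MP_270b6b_co: dense graphs that are not the union of a bipartite graph and a graph of small degree

For every `n ≥ 5` and every `m ≥ 3 n + 1` there is a graph with `m` vertices and exactly
`C(2n+1, 2) - C(n, 2) - 1` edges which is not the union of a bipartite graph and a graph with all
degrees at most `n - 1`.

Construction: two disjoint cliques with together `n` vertices and sizes `r₁, r₂` as equal as
possible; the vertices of the `j`-th clique have `n` further common neighbours (the set `B_j`); one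
more vertex (the apex) is joined to all these `3 n` vertices. Suppose that the vertices are split
into two parts such that every vertex has at most `n - 1` neighbours in its own part. Then fewer
than `n = r₁ + r₂` of the `3 n` vertices are in the part of the apex, so that for `j = 1` or `j = 2`
fewer than `r_j` vertices of the `j`-th clique and of `B_j` are in this part. Some vertex of the
`j`-th clique is in the other part and has at least `(r_j - 1) + n - (r_j - 1) = n` neighbours
there, a contradiction. The number of edges is `3 n + n² + C(r₁, 2) + C(r₂, 2)`, which is at most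
`C(2n+1, 2) - C(n, 2) - 1` for `n ≥ 5`; any further edges may be added.
-/

namespace Pool.Agent.Results.MP_270b6b_co.FailsFromFive

open Finset

/-- the `x`-th vertex -/
def vtx (m : ℕ) (h0 : 0 < m) (x : ℕ) : Fin m := ⟨x % m, Nat.mod_lt _ h0⟩

lemma vtx_inj {m : ℕ} (h0 : 0 < m) {x y : ℕ} (hx : x < m) (hy : y < m)
    (h : vtx m h0 x = vtx m h0 y) : x = y := by
  simp only [vtx, Fin.mk.injEq] at h
  rwa [Nat.mod_eq_of_lt hx, Nat.mod_eq_of_lt hy] at h

/-- The number of vertices of an interval `[a, a + l)` that lie in the part of colour `k`. -/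
def cnt (c : ℕ → Fin 2) (k : Fin 2) (a l : ℕ) : ℕ := ((range l).filter (fun x => c (a + x) = k)).card

lemma cnt_add (c : ℕ → Fin 2) (k : Fin 2) (a l l' : ℕ) :
    cnt c k a (l + l') = cnt c k a l + cnt c k (a + l) l' := by
  unfold cnt
  have h1 : (range (l + l')).filter (fun x => c (a + x) = k) =
      (range l).filter (fun x => c (a + x) = k) ∪
        ((range l').filter (fun x => c (a + l + x) = k)).image (fun x => l + x) := by
    ext x
    simp only [mem_filter, mem_range, mem_union, mem_image]
    constructor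
    · rintro ⟨h, h'⟩
      by_cases hx : x < l
      · exact Or.inl ⟨hx, h'⟩
      · refine Or.inr ⟨x - l, ⟨by omega, ?_⟩, by omega⟩
        rw [show a + l + (x - l) = a + x by omega]
        exact h'
    · rintro (⟨h, h'⟩ | ⟨y, ⟨h, h'⟩, rfl⟩)
      · exact ⟨by omega, h'⟩
      · refine ⟨by omega, ?_⟩
        rw [show a + (l + y) = a + l + y by omega]
        exact h'
  rw [h1, card_union_of_disjoint, card_image_of_injective _ (add_right_injective l)]
  rw [disjoint_left]
  intro x hx hx'
  rw [mem_filter, mem_range] at hx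
  rw [mem_image] at hx'
  obtain ⟨y, -, rfl⟩ := hx'
  omega

lemma cnt_compl (c : ℕ → Fin 2) (k k' : Fin 2) (hk : k ≠ k') (a l : ℕ) :
    cnt c k a l + cnt c k' a l = l := by
  unfold cnt
  have h := Finset.card_filter_add_card_filter_not (s := range l) (fun x => c (a + x) = k)
  rw [card_range] at h
  have h2 : (range l).filter (fun x => ¬ c (a + x) = k) =
      (range l).filter (fun x => c (a + x) = k') := by
    apply filter_congr
    intro x _
    omega
  rw [h2] at h
  exact h

/-- A graph on `Fin m` with all required adjacencies is not a union as in the question. -/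
lemma bad (n r m : ℕ) (hn : 1 ≤ n) (hr : r ≤ n) (hm : 3 * n + 1 ≤ m) (h0 : 0 < m)
    (G : SimpleGraph (Fin m))
    (hA : ∀ x, x < 3 * n → G.Adj (vtx m h0 0) (vtx m h0 (1 + x)))
    (hM1 : ∀ x y, x < r → y < r → x ≠ y → G.Adj (vtx m h0 (1 + x)) (vtx m h0 (1 + y)))
    (hM2 : ∀ x y, x < n - r → y < n - r → x ≠ y →
      G.Adj (vtx m h0 (1 + r + x)) (vtx m h0 (1 + r + y)))
    (hB1 : ∀ x y, x < r → y < n → G.Adj (vtx m h0 (1 + x)) (vtx m h0 (1 + n + y)))
    (hB2 : ∀ x y, x < n - r → y < n →
      G.Adj (vtx m h0 (1 + r + x)) (vtx m h0 (1 + n + n + y))) :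
    ¬ ∃ B D : SimpleGraph (Fin m), B.IsBipartite ∧
      (∀ v, (D.neighborSet v).ncard ≤ n - 1) ∧ G = B ⊔ D := by
  classical
  rintro ⟨B, D, ⟨c⟩, hD, hG⟩
  -- the same colour implies an edge of `D`
  have hsame : ∀ u v, G.Adj u v → c u = c v → D.Adj u v := by
    intro u v huv hc
    rw [hG, SimpleGraph.sup_adj] at huv
    rcases huv with h | h
    · exact absurd hc (c.valid h)
    · exact h
  have hcnt : ∀ v, ∀ S : Finset (Fin m), (∀ w ∈ S, G.Adj v w ∧ c v = c w) → S.card ≤ n - 1 := by
    intro v S hSv
    refine le_trans ?_ (hD v)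
    rw [← Set.ncard_coe_finset]
    exact Set.ncard_le_ncard (fun w hw => hsame v w (hSv w hw).1 (hSv w hw).2) (Set.toFinite _)
  -- the version for numbers
  have hnum : ∀ v, ∀ S : Finset ℕ, (∀ x ∈ S, x < m) →
      (∀ x ∈ S, G.Adj v (vtx m h0 x) ∧ c v = c (vtx m h0 x)) → S.card ≤ n - 1 := by
    intro v S hSm hSv
    have h1 : (S.image (vtx m h0)).card = S.card := by
      apply card_image_of_injOn
      intro x hx y hy hxy
      exact vtx_inj h0 (hSm x hx) (hSm y hy) hxy
    rw [← h1]
    refine hcnt v _ ?_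
    intro w hw
    obtain ⟨x, hx, rfl⟩ := mem_image.mp hw
    exact hSv x hx
  let c' : ℕ → Fin 2 := fun x => c (vtx m h0 x)
  let k := c' 0
  obtain ⟨k', hk'⟩ : ∃ k' : Fin 2, k ≠ k' := ⟨k + 1, by omega⟩
  -- the apex
  have h1 : cnt c' k 1 (3 * n) ≤ n - 1 := by
    have : cnt c' k 1 (3 * n) =
        (((range (3 * n)).filter (fun x => c' (1 + x) = k)).image (fun x => 1 + x)).card := by
      rw [card_image_of_injective _ (add_right_injective 1)]
      rfl
    rw [this]
    refine hnum (vtx m h0 0) _ ?_ ?_
    · intro x hx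
      rw [mem_image] at hx
      obtain ⟨y, hy, rfl⟩ := hx
      rw [mem_filter, mem_range] at hy
      omega
    · intro x hx
      rw [mem_image] at hx
      obtain ⟨y, hy, rfl⟩ := hx
      rw [mem_filter, mem_range] at hy
      exact ⟨hA y hy.1, hy.2.symm⟩
  have h2 : cnt c' k 1 (3 * n) = cnt c' k 1 r + cnt c' k (1 + r) (n - r) +
      cnt c' k (1 + n) n + cnt c' k (1 + n + n) n := by
    have e1 := cnt_add c' k 1 (n + n) n
    have e2 := cnt_add c' k 1 n n
    have e3 := cnt_add c' k 1 r (n - r)
    rw [show r + (n - r) = n by omega] at e3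
    rw [show n + n + n = 3 * n by ring] at e1
    rw [show 1 + (n + n) = 1 + n + n by ring] at e1
    omega
  -- the main step for one of the two cliques
  have key : ∀ a l b : ℕ, cnt c' k a l + cnt c' k b n < l → 1 ≤ a → a + l ≤ 1 + n → 1 + n ≤ b →
      b + n ≤ m →
      (∀ x y, x < l → y < l → x ≠ y → G.Adj (vtx m h0 (a + x)) (vtx m h0 (a + y))) →
      (∀ x y, x < l → y < n → G.Adj (vtx m h0 (a + x)) (vtx m h0 (b + y))) → False := by
    intro a l b hlt ha hal hb hbm hM hB
    have e1 := cnt_compl c' k k' hk' a l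
    have e2 := cnt_compl c' k k' hk' b n
    have e3 : 0 < cnt c' k' a l := by omega
    unfold cnt at e3
    obtain ⟨x, hx⟩ := card_pos.mp e3
    rw [mem_filter, mem_range] at hx
    let S : Finset ℕ := (((range l).filter (fun y => c' (a + y) = k')).erase x).image (fun y => a + y) ∪
      ((range n).filter (fun y => c' (b + y) = k')).image (fun y => b + y)
    have hS : S.card = cnt c' k' a l - 1 + cnt c' k' b n := by
      rw [card_union_of_disjoint, card_image_of_injective _ (add_right_injective a),
        card_image_of_injective _ (add_right_injective b), card_erase_of_mem]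
      · rfl
      · rw [mem_filter, mem_range]
        exact hx
      · rw [disjoint_left]
        intro z hz hz'
        rw [mem_image] at hz hz'
        obtain ⟨y, hy, rfl⟩ := hz
        obtain ⟨y', hy', hyy⟩ := hz'
        rw [mem_erase, mem_filter, mem_range] at hy
        omega
    have hS' : S.card ≤ n - 1 := by
      refine hnum (vtx m h0 (a + x)) S ?_ ?_
      · intro z hz
        rw [mem_union, mem_image, mem_image] at hz
        rcases hz with ⟨y, hy, rfl⟩ | ⟨y, hy, rfl⟩
        · rw [mem_erase, mem_filter, mem_range] at hy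
          omega
        · rw [mem_filter, mem_range] at hy
          omega
      · intro z hz
        rw [mem_union, mem_image, mem_image] at hz
        rcases hz with ⟨y, hy, rfl⟩ | ⟨y, hy, rfl⟩
        · rw [mem_erase, mem_filter, mem_range] at hy
          refine ⟨hM x y hx.1 hy.2.1 (Ne.symm hy.1), ?_⟩
          exact hx.2.trans hy.2.2.symm
        · rw [mem_filter, mem_range] at hy
          refine ⟨hB x y hx.1 hy.1, ?_⟩
          exact hx.2.trans hy.2.symm
    omega
  have h3 : cnt c' k 1 r + cnt c' k (1 + n) n < r ∨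
      cnt c' k (1 + r) (n - r) + cnt c' k (1 + n + n) n < n - r := by omega
  rcases h3 with h3 | h3
  · exact key 1 r (1 + n) h3 le_rfl (by omega) le_rfl (by omega) hM1 hB1
  · exact key (1 + r) (n - r) (1 + n + n) h3 (by omega) (by omega) (by omega) (by omega) hM2 hB2

/-- the pairs `x < y < l` -/
def pairs (l : ℕ) : Finset (ℕ × ℕ) := (range l ×ˢ range l).filter (fun p => p.1 < p.2)

lemma card_pairs (l : ℕ) : (pairs l).card = l.choose 2 := by
  unfold pairs
  induction l with
  | zero => simp
  | succ l ih =>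
    rw [Nat.choose_succ_succ' l 1, Nat.choose_one_right, ← ih]
    have : (range (l + 1) ×ˢ range (l + 1)).filter (fun p : ℕ × ℕ => p.1 < p.2) =
        (range l).image (fun x => (x, l)) ∪
          (range l ×ˢ range l).filter (fun p : ℕ × ℕ => p.1 < p.2) := by
      ext ⟨x, y⟩
      simp only [mem_filter, mem_product, mem_range, mem_union, mem_image, Prod.mk.injEq]
      constructor
      · rintro ⟨⟨h1, h2⟩, h3⟩
        by_cases hy : y = l
        · exact Or.inl ⟨x, by omega, rfl, hy.symm⟩
        · exact Or.inr ⟨⟨by omega, by omega⟩, h3⟩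
      · rintro (⟨a, ha, rfl, rfl⟩ | ⟨⟨h1, h2⟩, h3⟩)
        · exact ⟨⟨by omega, by omega⟩, ha⟩
        · exact ⟨⟨by omega, by omega⟩, h3⟩
    rw [this, card_union_of_disjoint, card_image_of_injective, card_range]
    · intro x y hxy
      simpa using hxy
    · rw [disjoint_left]
      rintro ⟨x, y⟩ hx hx'
      simp only [mem_image, mem_range, Prod.mk.injEq, mem_filter, mem_product] at hx hx'
      omega

/-- **Main theorem.** For all `n ≥ 5` and all `m ≥ 3 n + 1` there is a graph with `m` vertices and
exactly `C(2n+1,2) - C(n,2) - 1` edges that is not the union of a bipartite graph and a graph with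
maximum degree at most `n - 1`. -/
theorem result (n m : ℕ) (hn : 5 ≤ n) (hm : 3 * n + 1 ≤ m) :
    ∃ G : SimpleGraph (Fin m),
      G.edgeSet.ncard = (2 * n + 1).choose 2 - n.choose 2 - 1 ∧
      ¬ ∃ B D : SimpleGraph (Fin m), B.IsBipartite ∧
        (∀ v, (D.neighborSet v).ncard ≤ n - 1) ∧ G = B ⊔ D := by
  classical
  have h0 : 0 < m := by omega
  obtain ⟨r, hr⟩ : ∃ r, r = n / 2 := ⟨_, rfl⟩
  -- the number of edges
  have hch : ∀ l : ℕ, 2 * l.choose 2 = l * (l - 1) := by
    intro l
    rw [Nat.choose_two_right]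
    exact Nat.mul_div_cancel' (Nat.even_mul_pred_self l).two_dvd
  obtain ⟨e, he⟩ : ∃ e, e = (2 * n + 1).choose 2 - n.choose 2 - 1 := ⟨_, rfl⟩
  rw [← he]
  have hem : e ≤ m.choose 2 := by
    have h1 : (2 * n + 1).choose 2 ≤ m.choose 2 := Nat.choose_le_choose 2 (by omega)
    omega
  have hecount : 3 * n + (r.choose 2 + (n - r).choose 2 + (r * n + (n - r) * n)) ≤ e := by
    have a1 := hch (2 * n + 1)
    have a2 := hch n
    have a3 := hch r
    have a4 := hch (n - r)
    rw [Nat.add_sub_cancel] at a1
    obtain ⟨s, hs⟩ : ∃ s, n = r + s := ⟨n - r, by omega⟩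
    rw [show n - r = s by omega] at a4 ⊢
    have b2 : n * (n - 1) + n = n * n := by
      calc n * (n - 1) + n = n * (n - 1 + 1) := by ring
        _ = n * n := by rw [Nat.sub_add_cancel (by omega)]
    have b3 : r * (r - 1) + r = r * r := by
      calc r * (r - 1) + r = r * (r - 1 + 1) := by ring
        _ = r * r := by rw [Nat.sub_add_cancel (by omega)]
    have b4 : s * (s - 1) + s = s * s := by
      calc s * (s - 1) + s = s * (s - 1 + 1) := by ring
        _ = s * s := by rw [Nat.sub_add_cancel (by omega)]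
    have b5 : (2 * n + 1) * (2 * n) = 4 * (n * n) + 2 * n := by ring
    have b6 : r * n + s * n = n * n := by rw [← add_mul, ← hs]
    have hrs : s = r ∨ s = r + 1 := by omega
    have hr2 : 2 ≤ r := by omega
    have goal2 : 2 * (3 * n) + 2 * r.choose 2 + 2 * s.choose 2 + 2 * (r * n + s * n) +
        2 * n.choose 2 + 2 ≤ 2 * (2 * n + 1).choose 2 := by
      rw [a1, a2, a3, a4, b5, b6]
      have : 2 * (3 * n) + (r * (r - 1) + r) + (s * (s - 1) + s) + 2 * (n * n) +
          (n * (n - 1) + n) + 2 ≤ 4 * (n * n) + 2 * n + r + s + n := by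
        rw [b2, b3, b4]
        rcases hrs with rfl | rfl
        · subst hs
          have : 3 ≤ s := by omega
          nlinarith
        · subst hs
          nlinarith
      omega
    omega
  -- the edges
  let E1 : Finset (Sym2 (Fin m)) := (range (3 * n)).image
    (fun x => s(vtx m h0 0, vtx m h0 (1 + x)))
  let E2 : Finset (Sym2 (Fin m)) := (pairs r).image
    (fun p => s(vtx m h0 (1 + p.1), vtx m h0 (1 + p.2)))
  let E3 : Finset (Sym2 (Fin m)) := (pairs (n - r)).image
    (fun p => s(vtx m h0 (1 + r + p.1), vtx m h0 (1 + r + p.2)))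
  let E4 : Finset (Sym2 (Fin m)) := (range r ×ˢ range n).image
    (fun p => s(vtx m h0 (1 + p.1), vtx m h0 (1 + n + p.2)))
  let E5 : Finset (Sym2 (Fin m)) := (range (n - r) ×ˢ range n).image
    (fun p => s(vtx m h0 (1 + r + p.1), vtx m h0 (1 + n + n + p.2)))
  let E0 : Finset (Sym2 (Fin m)) := E1 ∪ (E2 ∪ E3 ∪ (E4 ∪ E5))
  have hE0 : E0.card ≤ e := by
    have c1 : E1.card ≤ 3 * n := card_image_le.trans (by rw [card_range])
    have c2 : E2.card ≤ r.choose 2 := card_image_le.trans (by rw [card_pairs])
    have c3 : E3.card ≤ (n - r).choose 2 := card_image_le.trans (by rw [card_pairs])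
    have c4 : E4.card ≤ r * n := card_image_le.trans (by rw [card_product, card_range, card_range])
    have c5 : E5.card ≤ (n - r) * n :=
      card_image_le.trans (by rw [card_product, card_range, card_range])
    have d1 : E0.card ≤ E1.card + (E2 ∪ E3 ∪ (E4 ∪ E5)).card := card_union_le _ _
    have d2 : (E2 ∪ E3 ∪ (E4 ∪ E5)).card ≤ (E2 ∪ E3).card + (E4 ∪ E5).card := card_union_le _ _
    have d3 : (E2 ∪ E3).card ≤ E2.card + E3.card := card_union_le _ _
    have d4 : (E4 ∪ E5).card ≤ E4.card + E5.card := card_union_le _ _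
    omega
  have hne : ∀ x y, x < m → y < m → x ≠ y →
      s(vtx m h0 x, vtx m h0 y) ∈ (⊤ : SimpleGraph (Fin m)).edgeFinset := by
    intro x y hx hy hxy
    rw [SimpleGraph.mem_edgeFinset, SimpleGraph.mem_edgeSet, SimpleGraph.top_adj]
    intro h
    exact hxy (vtx_inj h0 hx hy h)
  have hsub : E0 ⊆ (⊤ : SimpleGraph (Fin m)).edgeFinset := by
    intro z hz
    simp only [E0, E1, E2, E3, E4, E5, mem_union, mem_image, mem_range, mem_product, pairs,
      mem_filter] at hz
    rcases hz with ⟨x, hx, rfl⟩ | (⟨p, hp, rfl⟩ | ⟨p, hp, rfl⟩) | ⟨p, hp, rfl⟩ | ⟨p, hp, rfl⟩ <;>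
      exact hne _ _ (by omega) (by omega) (by omega)
  have htop : (⊤ : SimpleGraph (Fin m)).edgeFinset.card = m.choose 2 := by
    rw [SimpleGraph.card_edgeFinset_top_eq_card_choose_two, Fintype.card_fin]
  obtain ⟨E, hE1, hE2, hE3⟩ := Finset.exists_subsuperset_card_eq hsub hE0 (by rw [htop]; exact hem)
  have hadj : ∀ u v : Fin m, s(u, v) ∈ E0 →
      (SimpleGraph.fromEdgeSet (E : Set (Sym2 (Fin m)))).Adj u v := by
    intro u v huv
    rw [SimpleGraph.fromEdgeSet_adj]
    refine ⟨hE1 huv, ?_⟩
    have := hsub huv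
    rw [SimpleGraph.mem_edgeFinset, SimpleGraph.mem_edgeSet, SimpleGraph.top_adj] at this
    exact this
  refine ⟨SimpleGraph.fromEdgeSet (E : Set (Sym2 (Fin m))), ?_, ?_⟩
  · rw [SimpleGraph.edgeSet_fromEdgeSet]
    have : (E : Set (Sym2 (Fin m))) \ {e | e.IsDiag} = E := by
      ext x
      simp only [Set.mem_sdiff, mem_coe, Set.mem_ofPred_eq, and_iff_left_iff_imp]
      intro hx
      have := hE2 hx
      rw [SimpleGraph.mem_edgeFinset] at this
      exact SimpleGraph.not_isDiag_of_mem_edgeSet _ this
    first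
      | rw [this, Set.ncard_coe_finset, hE3]
      | (simp only [Sym2.diagSet] at *; rw [this, Set.ncard_coe_finset, hE3])
  · refine bad n r m (by omega) (by omega) hm h0 _ ?_ ?_ ?_ ?_ ?_
    · intro x hx
      apply hadj
      simp only [E0, E1, mem_union, mem_image, mem_range]
      exact Or.inl ⟨x, hx, rfl⟩
    · intro x y hx hy hxy
      rcases Nat.lt_or_gt_of_ne hxy with h | h
      · apply hadj
        simp only [E0, E2, mem_union, mem_image, pairs, mem_filter, mem_product, mem_range]
        exact Or.inr (Or.inl (Or.inl ⟨(x, y), ⟨⟨hx, hy⟩, h⟩, rfl⟩))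
      · apply SimpleGraph.Adj.symm
        apply hadj
        simp only [E0, E2, mem_union, mem_image, pairs, mem_filter, mem_product, mem_range]
        exact Or.inr (Or.inl (Or.inl ⟨(y, x), ⟨⟨hy, hx⟩, h⟩, rfl⟩))
    · intro x y hx hy hxy
      rcases Nat.lt_or_gt_of_ne hxy with h | h
      · apply hadj
        simp only [E0, E3, mem_union, mem_image, pairs, mem_filter, mem_product, mem_range]
        exact Or.inr (Or.inl (Or.inr ⟨(x, y), ⟨⟨hx, hy⟩, h⟩, rfl⟩))
      · apply SimpleGraph.Adj.symm
        apply hadj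
        simp only [E0, E3, mem_union, mem_image, pairs, mem_filter, mem_product, mem_range]
        exact Or.inr (Or.inl (Or.inr ⟨(y, x), ⟨⟨hy, hx⟩, h⟩, rfl⟩))
    · intro x y hx hy
      apply hadj
      simp only [E0, E4, mem_union, mem_image, mem_product, mem_range]
      exact Or.inr (Or.inr (Or.inl ⟨(x, y), ⟨hx, hy⟩, rfl⟩))
    · intro x y hx hy
      apply hadj
      simp only [E0, E5, mem_union, mem_image, mem_product, mem_range]
      exact Or.inr (Or.inr (Or.inr ⟨(x, y), ⟨hx, hy⟩, rfl⟩))

end Pool.Agent.Results.MP_270b6b_co.FailsFromFive
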